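import Mathlib

/-!
# Consequences of super edge-magic labellings of trees: edge-magic and harmonious labellings
-/

set_option autoImplicit false

namespace Pool.Agent.EM

open Finset

open Classical in
/-- a super edge-magic labelling of a tree gives an edge-magic labelling, in the form of `S09999` -/
theorem em_of_sem {n : ℕ} (G : SimpleGraph (Fin n)) (hG : G.IsTree) (f : Fin n → ℕ) (g : G.edgeSet → ℕ) (k : ℕ)
    (hf : Function.Injective f) (hf1 : ∀ v, 1 ≤ f v ∧ f v ≤ n) (hg : Function.Injective g)
    (hg1 : ∀ e, n + 1 ≤ g e ∧ g e < 2 * n)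
    (hk : ∀ (e : G.edgeSet) (u v : Fin n), (e : Sym2 (Fin n)) = s(u, v) → f u + g e + f v = k) :
    ∃ e : (Fin n ⊕ G.edgeSet) ≃ Fin (Nat.card (Fin n ⊕ G.edgeSet)), ∃ k : ℕ,
        ∀ (u v : Fin n) (h : G.Adj u v),
          ((e (Sum.inl u)).val + 1)
            + ((e (Sum.inr ⟨s(u, v), (SimpleGraph.mem_edgeSet G).mpr h⟩)).val + 1)
            + ((e (Sum.inl v)).val + 1) = k := by
  have hE : Fintype.card G.edgeSet + 1 = n := by
    have h1 := hG.card_edgeFinset
    rw [Fintype.card_fin, SimpleGraph.edgeFinset, Set.toFinset_card] at h1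
    exact h1
  have hN : Nat.card (Fin n ⊕ G.edgeSet) = 2 * n - 1 := by
    rw [Nat.card_eq_fintype_card, Fintype.card_sum, Fintype.card_fin]
    omega
  set F : (Fin n ⊕ G.edgeSet) → Fin (Nat.card (Fin n ⊕ G.edgeSet)) := fun x =>
    match x with
    | Sum.inl v => ⟨f v - 1, by have := hf1 v; have := v.2; omega⟩
    | Sum.inr e => ⟨g e - 1, by have := hg1 e; omega⟩ with hF
  have hinj : Function.Injective F := by
    rintro (u | e) (v | e') h
    · have h1 : f u - 1 = f v - 1 := by simpa [hF] using h
      have h2 := hf1 u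
      have h3 := hf1 v
      rw [hf (by omega : f u = f v)]
    · exfalso
      have h1 : f u - 1 = g e' - 1 := by simpa [hF] using h
      have h2 := hf1 u
      have h3 := hg1 e'
      omega
    · exfalso
      have h1 : g e - 1 = f v - 1 := by simpa [hF] using h
      have h2 := hf1 v
      have h3 := hg1 e
      omega
    · have h1 : g e - 1 = g e' - 1 := by simpa [hF] using h
      have h2 := hg1 e
      have h3 := hg1 e'
      rw [hg (by omega : g e = g e')]
  have hbij : Function.Bijective F :=
    (Fintype.bijective_iff_injective_and_card F).2 ⟨hinj, by rw [Fintype.card_fin, Nat.card_eq_fintype_card]⟩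
  refine ⟨Equiv.ofBijective F hbij, k, ?_⟩
  intro u v h
  have h1 := hf1 u
  have h2 := hf1 v
  have h3 := hg1 ⟨s(u, v), (SimpleGraph.mem_edgeSet G).mpr h⟩
  have h4 := hk ⟨s(u, v), (SimpleGraph.mem_edgeSet G).mpr h⟩ u v rfl
  simp only [Equiv.ofBijective_apply, hF]
  omega

open Classical in
/-- a super edge-magic labelling of a tree gives a harmonious labelling -/
theorem harm_of_sem {n : ℕ} (G : SimpleGraph (Fin n)) (hn : 2 ≤ n) (f : Fin n → ℕ) (g : G.edgeSet → ℕ) (k : ℕ)
    (hf : Function.Injective f) (hf1 : ∀ v, 1 ≤ f v ∧ f v ≤ n) (hg : Function.Injective g)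
    (hg1 : ∀ e, n + 1 ≤ g e ∧ g e < 2 * n)
    (hk : ∀ (e : G.edgeSet) (u v : Fin n), (e : Sym2 (Fin n)) = s(u, v) → f u + g e + f v = k) :
    ∃ f : Fin n → ZMod (Fintype.card (Fin n) - 1),
        Function.Surjective f ∧
        ∀ u v x y : Fin n, G.Adj u v → G.Adj x y →
          f u + f v = f x + f y → s(u, v) = s(x, y) := by
  rw [Fintype.card_fin]
  have : NeZero (n - 1) := ⟨by omega⟩
  refine ⟨fun v => (f v : ZMod (n - 1)), ?_, ?_⟩
  · -- surjective
    have hS : Function.Bijective (fun v : Fin n => (⟨f v - 1, by have := hf1 v; omega⟩ : Fin n)) := by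
      refine (Finite.injective_iff_bijective).1 ?_
      intro u v h
      have h1 : f u - 1 = f v - 1 := by simpa using h
      have h2 := hf1 u
      have h3 := hf1 v
      exact hf (by omega)
    intro c
    have hc := ZMod.val_lt c
    obtain ⟨v, hv⟩ := hS.2 ⟨if c.val = 0 then n - 2 else c.val - 1, by split_ifs <;> omega⟩
    have hv' : f v - 1 = if c.val = 0 then n - 2 else c.val - 1 := by simpa using hv
    have h1 := hf1 v
    refine ⟨v, ?_⟩
    by_cases h0 : c.val = 0
    · rw [if_pos h0] at hv'
      have h2 : f v = n - 1 := by omega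
      simp only
      rw [h2, ZMod.natCast_self]
      exact ((ZMod.val_eq_zero c).1 h0).symm
    · rw [if_neg h0] at hv'
      have h2 : f v = c.val := by omega
      simp only
      rw [h2, ZMod.natCast_zmod_val]
  · intro u v x y huv hxy h
    have k1 := hk ⟨s(u, v), (SimpleGraph.mem_edgeSet G).mpr huv⟩ u v rfl
    have k2 := hk ⟨s(x, y), (SimpleGraph.mem_edgeSet G).mpr hxy⟩ x y rfl
    have g1 := hg1 ⟨s(u, v), (SimpleGraph.mem_edgeSet G).mpr huv⟩
    have g2 := hg1 ⟨s(x, y), (SimpleGraph.mem_edgeSet G).mpr hxy⟩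
    have h1 : ((f u + f v : ℕ) : ZMod (n - 1)) = ((f x + f y : ℕ) : ZMod (n - 1)) := by
      push_cast
      exact h
    rw [ZMod.natCast_eq_natCast_iff] at h1
    have h2 : f u + f v = f x + f y := by
      rcases le_total (f u + f v) (f x + f y) with hle | hle
      · have h3 := (Nat.modEq_iff_dvd' hle).1 h1
        by_contra hne
        have := Nat.le_of_dvd (by omega) h3
        omega
      · have h3 := (Nat.modEq_iff_dvd' hle).1 h1.symm
        by_contra hne
        have := Nat.le_of_dvd (by omega) h3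
        omega
    have h3 : g ⟨s(u, v), (SimpleGraph.mem_edgeSet G).mpr huv⟩ = g ⟨s(x, y), (SimpleGraph.mem_edgeSet G).mpr hxy⟩ := by omega
    have h4 := hg h3
    have h5 := congrArg Subtype.val h4
    simp only at h5
    exact h5

end Pool.Agent.EM
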